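import Mathlib
import Pool.Agent.H239R3.KCe
import Pool.Agent.H588R3.FC.Semi
import Pool.Agent.H588R3.TC.Semi

set_option autoImplicit false

open MeasureTheory ProbabilityTheory

/-!
# From 1-dependent 4-colourings to 2-dependent 3-colourings
-/

namespace Pool.Agent.H588R3.BR

open Pool.Agent.H239R3

theorem cyl_eq_win4 (w : List (Fin 4)) : KC.cyl 0 w = {x | FC.win x 0 w.length = w} := by
  ext x
  rw [KC.mem_cyl]
  show _ ↔ FC.win x 0 w.length = w
  constructor
  · intro h
    apply List.ext_getElem
    · rw [FC.win_length]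
    · intro i h1 h2
      rw [FC.win_getElem]
      exact h i h2
  · intro h i hi
    have h1 : i < (FC.win x 0 w.length).length := by rw [FC.win_length]; exact hi
    have h2 := FC.win_getElem x 0 w.length i h1
    rw [← h2]
    have : ∀ (l : List (Fin 4)) (hl : i < l.length), l = w → l[i] = w[i] := by
      rintro l hl rfl
      rfl
    exact this _ h1 h

variable {μ : Measure (ℤ → Fin 4)}

theorem sol (hμ : FC.IsColoringLaw μ) : KC.Sol (KC.Pm μ) := by
  have := hμ.prob
  exact KC.Pm_sol hμ.stationary hμ.coloring hμ.dependence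

theorem Pm_word (μ : Measure (ℤ → Fin 4)) (w : List (Fin 4)) :
    KC.Pm μ (KC.wd (FreeMonoid.ofList w)) = FC.wp μ w := by
  rw [KC.Pm_wd, FreeMonoid.toList_ofList, cyl_eq_win4]
  rfl

theorem x_mul (a : Fin 4) (w : List (Fin 4)) :
    KC.x a * KC.wd (FreeMonoid.ofList w) = KC.wd (FreeMonoid.ofList (a :: w)) := by
  rw [KC.x, ← KC.wd_mul]
  rfl

theorem mul_x (a : Fin 4) (w : List (Fin 4)) :
    KC.wd (FreeMonoid.ofList w) * KC.x a = KC.wd (FreeMonoid.ofList (w ++ [a])) := by
  rw [KC.x, ← KC.wd_mul]
  rfl

theorem dens (hμ : FC.IsColoringLaw μ) (a : Fin 4) : FC.wp μ [a] = 1 / 4 := by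
  rw [← Pm_word]
  exact KC.dens (sol hμ) a

theorem half_nonneg (hμ : FC.IsColoringLaw μ) (a : Fin 4) (w : List (Fin 4)) :
    0 ≤ FC.wp μ w - 2 * FC.wp μ (a :: w) := by
  by_contra hneg
  push Not at hneg
  obtain ⟨n, hn⟩ := exists_nat_gt (FC.wp μ w / (-(FC.wp μ w - 2 * FC.wp μ (a :: w))))
  have h1 := KC.Bnp (sol hμ) a (KC.wd (FreeMonoid.ofList w)) n
  rw [x_mul, Pm_word, Pm_word] at h1
  have h2 : 0 ≤ KC.Pm μ (KC.B a ^ n * KC.wd (FreeMonoid.ofList w)) * 2 ^ n :=
    mul_nonneg ((sol hμ).cone_nonneg (mul_mem (pow_mem (KC.B_mem a) n) (KC.wd_mem _)))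
      (by positivity)
  rw [h1] at h2
  have h3 : 0 < -(FC.wp μ w - 2 * FC.wp μ (a :: w)) := by linarith
  rw [div_lt_iff₀ h3] at hn
  nlinarith

theorem key4 (hμ : FC.IsColoringLaw μ) (a : Fin 4) (w : List (Fin 4)) (hw : ∀ b ∈ w, b ≠ a) :
    FC.wp μ w - 2 * FC.wp μ (a :: w) - 2 * FC.wp μ (w ++ [a]) +
      4 * FC.wp μ (a :: (w ++ [a])) = 0 := by
  have h := KC.K_word (sol hμ) a w hw
  unfold KC.K at h
  rw [mul_assoc, mul_x, x_mul, x_mul, Pm_word, Pm_word, Pm_word, Pm_word] at h
  exact h

theorem sum_split (a : Fin 4) (f : Fin 4 → ℝ) : ∑ c : Fin 3, f (a.succAbove c) = (∑ i, f i) - f a := by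
  rw [Fin.sum_univ_succAbove f a]; ring

/-- The weights of the 3-colouring. -/
noncomputable def Q (μ : Measure (ℤ → Fin 4)) (a : Fin 4) (w : List (Fin 3)) : ℝ :=
  2 ^ (w.length + 1) * (FC.wp μ (w.map a.succAbove) - 2 * FC.wp μ (a :: w.map a.succAbove))

theorem map_avoid (a : Fin 4) (w : List (Fin 3)) : ∀ b ∈ w.map a.succAbove, b ≠ a := by
  intro b hb
  obtain ⟨c, _, rfl⟩ := List.mem_map.1 hb
  exact Fin.succAbove_ne a c

theorem proper_map (a : Fin 4) {w : List (Fin 3)} (h : FC.Proper (w.map a.succAbove)) :
    TC.Proper w := by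
  unfold FC.Proper at h
  unfold TC.Proper
  rw [List.isChain_map] at h
  refine h.imp ?_
  intro c d hcd h'
  exact hcd (by rw [h'])

theorem sum_cons (hμ : FC.IsColoringLaw μ) (a : Fin 4) (w : List (Fin 4)) :
    ∑ c : Fin 3, FC.wp μ (a.succAbove c :: w) = FC.wp μ w - FC.wp μ (a :: w) := by
  rw [sum_split a (fun i => FC.wp μ (i :: w)), (FC.wlaw_of_law hμ).left]

theorem sum_mid (hμ : FC.IsColoringLaw μ) (a : Fin 4) (u v : List (Fin 4)) :
    ∑ c : Fin 3, FC.wp μ (u ++ a.succAbove c :: v) =
      FC.wp μ u * FC.wp μ v - FC.wp μ (u ++ a :: v) := by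
  rw [sum_split a (fun i => FC.wp μ (u ++ i :: v)), (FC.wlaw_of_law hμ).mid]

theorem double (hμ : FC.IsColoringLaw μ) (a : Fin 4) (u v : List (Fin 4)) :
    FC.wp μ (u ++ a :: a :: v) = 0 :=
  (FC.wlaw_of_law hμ).improper _ (FC.not_proper_double u v a)

theorem Q_left (hμ : FC.IsColoringLaw μ) (a : Fin 4) (w : List (Fin 3)) :
    ∑ c, Q μ a (c :: w) = Q μ a w := by
  unfold Q
  simp only [List.map_cons, List.length_cons]
  rw [← Finset.mul_sum, Finset.sum_sub_distrib, ← Finset.mul_sum, sum_cons hμ]
  have h1 := sum_mid hμ a [a] (w.map a.succAbove)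
  simp only [List.singleton_append] at h1
  have h2 := double hμ a [] (w.map a.succAbove)
  simp only [List.nil_append] at h2
  rw [h1, h2, dens hμ]
  ring

theorem Q_right (hμ : FC.IsColoringLaw μ) (a : Fin 4) (w : List (Fin 3)) :
    ∑ c, Q μ a (w ++ [c]) = Q μ a w := by
  unfold Q
  simp only [List.map_append, List.map_cons, List.map_nil, List.length_append, List.length_cons,
    List.length_nil, zero_add]
  rw [← Finset.mul_sum, Finset.sum_sub_distrib, ← Finset.mul_sum]
  have h1 := sum_mid hμ a (w.map a.succAbove) []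
  have h2 := sum_mid hμ a (a :: w.map a.succAbove) []
  simp only [List.cons_append] at h2
  rw [h1, h2, (FC.wlaw_of_law hμ).nil]
  have h3 := key4 hμ a (w.map a.succAbove) (map_avoid a w)
  linear_combination ((2 : ℝ) ^ (w.length + 1)) * h3

theorem Q_mid (hμ : FC.IsColoringLaw μ) (a : Fin 4) (u v : List (Fin 3)) :
    ∑ c, ∑ d, Q μ a (u ++ c :: d :: v) = Q μ a u * Q μ a v := by
  unfold Q
  simp only [List.map_append, List.map_cons, List.length_append, List.length_cons]
  set U := u.map a.succAbove with hU
  set V := v.map a.succAbove with hV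
  have h1 : ∀ (T : List (Fin 4)), ∑ c : Fin 3, ∑ d : Fin 3,
      FC.wp μ (T ++ a.succAbove c :: a.succAbove d :: V) =
        (FC.wp μ T - FC.wp μ (T ++ [a])) * FC.wp μ V - FC.wp μ T * FC.wp μ (a :: V) := by
    intro T
    have e1 : ∀ c : Fin 3, ∑ d : Fin 3, FC.wp μ (T ++ a.succAbove c :: a.succAbove d :: V) =
        FC.wp μ (T ++ a.succAbove c :: []) * FC.wp μ V - FC.wp μ (T ++ a.succAbove c :: a :: V) := by
      intro c
      have := sum_mid hμ a (T ++ [a.succAbove c]) V
      simpa using this
    simp only [e1]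
    rw [Finset.sum_sub_distrib, ← Finset.sum_mul, sum_mid hμ a T [], sum_mid hμ a T (a :: V),
      double hμ a T V, (FC.wlaw_of_law hμ).nil]
    ring
  have h2 := h1 U
  have h3 := h1 (a :: U)
  simp only [List.cons_append] at h3
  simp only [← Finset.mul_sum, Finset.sum_sub_distrib]
  rw [h2, h3]
  have h4 := key4 hμ a U (map_avoid a u)
  have e : (2 : ℝ) ^ (u.length + (v.length + 1 + 1) + 1) =
      2 ^ (u.length + 1) * 2 ^ (v.length + 1) * 2 := by
    rw [← pow_add, ← pow_succ]; congr 1; omega
  rw [e]
  linear_combination ((2 : ℝ) ^ (u.length + 1) * 2 ^ (v.length + 1) * FC.wp μ V) * h4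

theorem Q_law (hμ : FC.IsColoringLaw μ) (a : Fin 4) : TC.WLaw (Q μ a) := by
  refine ⟨?_, ?_, ?_, Q_left hμ a, Q_right hμ a, Q_mid hμ a⟩
  · intro w
    exact mul_nonneg (by positivity) (half_nonneg hμ a _)
  · unfold Q
    simp only [List.map_nil, List.length_nil]
    rw [(FC.wlaw_of_law hμ).nil, dens hμ]
    norm_num
  · intro w hw
    have h1 : ¬ FC.Proper (w.map a.succAbove) := fun h => hw (proper_map a h)
    have h2 : ¬ FC.Proper (a :: w.map a.succAbove) := by
      have := FC.not_proper_right (x := [a]) h1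
      exact this
    unfold Q
    rw [(FC.wlaw_of_law hμ).improper _ h1, (FC.wlaw_of_law hμ).improper _ h2]
    ring

/-- Klein invariance of word probabilities. -/
theorem klein_word (hμ : FC.IsColoringLaw μ) {π : Equiv.Perm (Fin 4)} (hπ : KC.V4 π)
    (w : List (Fin 4)) : FC.wp μ (w.map π) = FC.wp μ w := by
  have h := KC.invariance (sol hμ) hπ (FreeMonoid.ofList w)
  rw [Pm_word] at h
  have e : FreeMonoid.map π (FreeMonoid.ofList w) = FreeMonoid.ofList (w.map π) := by
    apply FreeMonoid.toList.injective
    rw [FreeMonoid.toList_map, FreeMonoid.toList_ofList, FreeMonoid.toList_ofList]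
  rw [e, Pm_word] at h
  exact h.symm

/-- For any two colours there is a Klein involution exchanging them. -/
theorem exists_V4 (a b : Fin 4) (hab : a ≠ b) : ∃ π : Equiv.Perm (Fin 4), KC.V4 π ∧ π b = a := by
  unfold KC.V4
  revert a b
  decide

theorem avoid_map (a : Fin 4) (w : List (Fin 4)) (hw : ∀ b ∈ w, b ≠ a) :
    ∃ w' : List (Fin 3), w = w'.map a.succAbove := by
  induction w with
  | nil => exact ⟨[], rfl⟩
  | cons c w ih =>
    obtain ⟨w', hw'⟩ := ih (fun b hb => hw b (List.mem_cons_of_mem _ hb))
    obtain ⟨d, hd⟩ := Fin.exists_succAbove_eq (hw c List.mem_cons_self)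
    exact ⟨d :: w', by rw [List.map_cons, hd, hw']⟩

/-- The 3-colouring determines the 4-colouring. -/
theorem determined {ν : Measure (ℤ → Fin 4)} (hμ : FC.IsColoringLaw μ) (hν : FC.IsColoringLaw ν)
    (a : Fin 4) (h : Q μ a = Q ν a) : FC.wp μ = FC.wp ν := by
  -- the half weights agree for every colour
  have key : ∀ (b : Fin 4) (w : List (Fin 4)), (∀ c ∈ w, c ≠ b) →
      FC.wp μ w - 2 * FC.wp μ (b :: w) = FC.wp ν w - 2 * FC.wp ν (b :: w) := by
    have keya : ∀ w : List (Fin 4), (∀ c ∈ w, c ≠ a) →
        FC.wp μ w - 2 * FC.wp μ (a :: w) = FC.wp ν w - 2 * FC.wp ν (a :: w) := by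
      intro w hw
      obtain ⟨w', rfl⟩ := avoid_map a w hw
      have h1 := congrFun h w'
      unfold Q at h1
      exact mul_left_cancel₀ (by positivity) h1
    intro b w hw
    by_cases hab : a = b
    · subst hab
      exact keya w hw
    · obtain ⟨π, hπ, hπb⟩ := exists_V4 a b hab
      have hinj : Function.Injective π := π.injective
      have h1 := keya (w.map π) (by
        intro c hc
        obtain ⟨d, hd, rfl⟩ := List.mem_map.1 hc
        intro h'
        apply hw d hd
        apply hinj
        rw [h', hπb])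
      have e : a :: w.map π = (b :: w).map π := by rw [List.map_cons, hπb]
      rw [e, klein_word hμ hπ, klein_word hμ hπ, klein_word hν hπ, klein_word hν hπ] at h1
      exact h1
  have main : ∀ (n : ℕ) (w : List (Fin 4)), w.length = n → FC.wp μ w = FC.wp ν w := by
    intro n
    induction n using Nat.strong_induction_on with
    | _ n ih =>
      intro w hw
      cases w with
      | nil => rw [(FC.wlaw_of_law hμ).nil, (FC.wlaw_of_law hν).nil]
      | cons b t =>
        have inner : ∀ (k : ℕ) (t : List (Fin 4)), t.length + 1 = n → t.count b = k →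
            FC.wp μ (b :: t) = FC.wp ν (b :: t) := by
          intro k
          induction k with
          | zero =>
            intro t ht hk
            have hav : ∀ c ∈ t, c ≠ b := by
              intro c hc h'
              subst h'
              exact List.count_eq_zero.1 hk hc
            have h1 := key b t hav
            have h2 := ih t.length (by omega) t rfl
            linarith
          | succ k ihk =>
            intro t ht hk
            have hmem : b ∈ t := List.count_pos_iff.1 (by omega)
            obtain ⟨s, t', rfl⟩ := List.append_of_mem hmem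
            have h1 := sum_mid hμ b (b :: s) t'
            have h2 := sum_mid hν b (b :: s) t'
            have h3 : ∀ c : Fin 3, FC.wp μ ((b :: s) ++ b.succAbove c :: t') =
                FC.wp ν ((b :: s) ++ b.succAbove c :: t') := by
              intro c
              simp only [List.cons_append]
              apply ihk
              · simp at ht ⊢; omega
              · have hne : b.succAbove c ≠ b := Fin.succAbove_ne b c
                simp only [List.count_append, List.count_cons, beq_self_eq_true, if_true] at hk ⊢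
                have : (b.succAbove c == b) = false := by simpa using hne
                rw [this]
                simp
                omega
            simp only [h3] at h1
            simp only [List.length_append, List.length_cons] at ht
            have h4 := ih (b :: s).length (by simp; omega) (b :: s) rfl
            have h5 := ih t'.length (by omega) t' rfl
            rw [h4, h5] at h1
            simp only [List.cons_append] at h1 h2
            linarith
        simp only [List.length_cons] at hw
        exact inner _ t hw rfl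
  funext w
  exact main _ w rfl

end Pool.Agent.H588R3.BR
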