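import Mathlib
import Pool.Agent.H588R3.TC.Semi

set_option autoImplicit false

/-!
# From 2-dependent 3-colourings to 1-dependent 4-colourings: the weights
-/

namespace Pool.Agent.H588R3.BR

open TC (sdel)

/-- Deletion sum with the conventions for the empty word and for improper words. -/
noncomputable def D (g : List (Fin 3) → ℝ) (w : List (Fin 3)) : ℝ :=
  if w = [] then 2 * g [] else if TC.Proper w then sdel g w else 0

theorem D_nil (g : List (Fin 3) → ℝ) : D g [] = 2 * g [] := by simp [D]

theorem D_improper (g : List (Fin 3) → ℝ) {w : List (Fin 3)} (hw : ¬ TC.Proper w) :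
    D g w = 0 := by
  unfold D
  have : w ≠ [] := by rintro rfl; exact hw (by simp [TC.Proper])
  rw [if_neg this, if_neg hw]

theorem D_proper (g : List (Fin 3) → ℝ) {w : List (Fin 3)} (h0 : w ≠ []) (hw : TC.Proper w) :
    D g w = sdel g w := by
  unfold D
  rw [if_neg h0, if_pos hw]

theorem D_mul (c : ℝ) (g : List (Fin 3) → ℝ) (w : List (Fin 3)) :
    D (fun m => c * g m) w = c * D g w := by
  unfold D
  split_ifs
  · ring
  · exact TC.sdel_mul c g w
  · ring

theorem D_add (f g : List (Fin 3) → ℝ) (w : List (Fin 3)) :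
    D (fun m => f m + g m) w = D f w + D g w := by
  unfold D
  split_ifs
  · ring
  · exact TC.sdel_add f g w
  · ring

theorem D_sub (f g : List (Fin 3) → ℝ) (w : List (Fin 3)) :
    D (fun m => f m - g m) w = D f w - D g w := by
  have h := D_add f (fun m => (-1) * g m) w
  rw [D_mul] at h
  have e : (fun m => f m + -1 * g m) = fun m => f m - g m := by funext m; ring
  rw [e] at h
  rw [h]; ring

theorem D_sum {ι : Type*} (s : Finset ι) (f : ι → List (Fin 3) → ℝ) (w : List (Fin 3)) :
    ∑ a ∈ s, D (f a) w = D (fun m => ∑ a ∈ s, f a m) w := by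
  unfold D
  split_ifs
  · rw [Finset.mul_sum]
  · exact TC.sdel_sum s f w
  · simp

theorem D_zero (w : List (Fin 3)) : D (fun _ => 0) w = 0 := by
  unfold D
  split_ifs
  · ring
  · exact TC.sdel_zero w
  · rfl

/-- The identity for one inserted letter, for a functional vanishing on improper words. -/
theorem D_mid {g : List (Fin 3) → ℝ} (hg : ∀ w, ¬ TC.Proper w → g w = 0)
    {x y : List (Fin 3)} (hx : TC.Proper x) (hy : TC.Proper y) (a : Fin 3) :
    D g (x ++ a :: y) = sdel (fun m => g (m ++ a :: y)) x + sdel (fun m => g (x ++ a :: m)) y +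
      (1 - 2 * (if x.getLast? = some a then 1 else 0) -
        2 * (if y.head? = some a then 1 else 0)) * g (x ++ y) := by
  by_cases h1 : x.getLast? = some a
  · obtain ⟨x', rfl⟩ : ∃ x', x = x' ++ [a] := by
      rw [List.getLast?_eq_some_iff] at h1
      exact h1
    have e0 : D g (x' ++ [a] ++ a :: y) = 0 := by
      apply D_improper
      have := TC.not_proper_double x' y a
      simpa using this
    have e1 : sdel (fun m => g (m ++ a :: y)) (x' ++ [a]) = g (x' ++ [a] ++ y) := by
      rw [TC.sdel_append]
      have : (fun m => g (m ++ [a] ++ a :: y)) = fun _ => (0 : ℝ) := by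
        funext m
        apply hg
        have := TC.not_proper_double m y a
        simpa using this
      rw [this, TC.sdel_zero]
      simp [sdel]
    have e2 : sdel (fun m => g (x' ++ [a] ++ a :: m)) y = 0 := by
      have : (fun m => g (x' ++ [a] ++ a :: m)) = fun _ => (0 : ℝ) := by
        funext m
        apply hg
        have := TC.not_proper_double x' m a
        simpa using this
      rw [this, TC.sdel_zero]
    rw [e0, e1, e2, if_pos h1]
    by_cases h2 : y.head? = some a
    · obtain ⟨y', rfl⟩ : ∃ y', y = a :: y' := by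
        cases y with
        | nil => simp at h2
        | cons c y' => simp only [List.head?_cons, Option.some.injEq] at h2; exact ⟨y', by rw [h2]⟩
      have e3 : g (x' ++ [a] ++ a :: y') = 0 := by
        apply hg
        have := TC.not_proper_double x' y' a
        simpa using this
      rw [e3]; ring
    · rw [if_neg h2]; ring
  · by_cases h2 : y.head? = some a
    · obtain ⟨y', rfl⟩ : ∃ y', y = a :: y' := by
        cases y with
        | nil => simp at h2
        | cons c y' => simp only [List.head?_cons, Option.some.injEq] at h2; exact ⟨y', by rw [h2]⟩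
      have e0 : D g (x ++ a :: a :: y') = 0 := D_improper g (TC.not_proper_double x y' a)
      have e1 : sdel (fun m => g (m ++ a :: a :: y')) x = 0 := by
        have : (fun m => g (m ++ a :: a :: y')) = fun _ => (0 : ℝ) := by
          funext m
          exact hg _ (TC.not_proper_double m y' a)
        rw [this, TC.sdel_zero]
      have e2 : sdel (fun m => g (x ++ a :: m)) (a :: y') = g (x ++ a :: y') := by
        simp only [sdel]
        have : (fun m => g (x ++ a :: a :: m)) = fun _ => (0 : ℝ) := by
          funext m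
          exact hg _ (TC.not_proper_double x m a)
        rw [this, TC.sdel_zero, add_zero]
      rw [e0, e1, e2, if_neg h1, if_pos h2]
      ring
    · have hp := TC.proper_mid hx hy h1 h2
      rw [D_proper g (by simp) hp, TC.sdel_append]
      simp only [sdel]
      rw [if_neg h1, if_neg h2]
      ring

/-- Summed form. -/
theorem D_mid_sum {g : List (Fin 3) → ℝ} (hg : ∀ w, ¬ TC.Proper w → g w = 0)
    {x y : List (Fin 3)} (hx : TC.Proper x) (hy : TC.Proper y) :
    ∑ a, D g (x ++ a :: y) = sdel (fun m => ∑ a, g (m ++ a :: y)) x +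
      sdel (fun m => ∑ a, g (x ++ a :: m)) y +
      (3 - 2 * (if x = [] then 0 else 1) - 2 * (if y = [] then 0 else 1)) * g (x ++ y) := by
  simp only [D_mid hg hx hy]
  rw [Finset.sum_add_distrib, Finset.sum_add_distrib, TC.sdel_sum, TC.sdel_sum,
    ← Finset.sum_mul, Finset.sum_sub_distrib, Finset.sum_sub_distrib, ← Finset.mul_sum,
    ← Finset.mul_sum, TC.sum_last, TC.sum_head]
  have h3 : ∑ _a : Fin 3, (1 : ℝ) = 3 := by simp
  rw [h3]

/-- Hypotheses on the functionals attached to the part of a word to the right of a block. -/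
structure Tail (Q G E F : List (Fin 3) → ℝ) (q : List (Fin 3)) : Prop where
  G0 : ∀ y, ¬ TC.Proper y → G y = 0
  E0 : ∀ y, ¬ TC.Proper y → E y = 0
  Gl : ∀ y, ∑ h, G (h :: y) = G y
  El : ∀ y, ∑ h, E (h :: y) = E y
  Gm : ∀ y z, ∑ h, ∑ k, G (y ++ h :: k :: z) = Q y * G z
  Em : ∀ y z, ∑ h, ∑ k, E (y ++ h :: k :: z) = Q y * E z
  Gr : ∀ y, ∑ h, G (y ++ [h]) = Q y * G []
  F1 : q ≠ [] → ∀ z, F z = D (fun m => ∑ h, G (z ++ h :: m)) q - G (z ++ q) -
    ∑ h, E (z ++ h :: q)
  F2 : q = [] → ∀ z, F z = G z - ∑ h, E (z ++ [h])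

theorem Tail.R {Q G E F : List (Fin 3) → ℝ} {q : List (Fin 3)} (T : Tail Q G E F q)
    (u : List (Fin 3)) : ∑ k, F (u ++ [k]) = Q u * (D G q - E q) - ∑ k, G (u ++ k :: q) := by
  by_cases hq : q = []
  · simp only [T.F2 hq]
    rw [Finset.sum_sub_distrib, T.Gr]
    have h1 : ∑ x, ∑ h, E (u ++ [x] ++ [h]) = Q u * E [] := by
      have := T.Em u []
      simpa using this
    rw [h1]
    subst hq
    rw [D_nil, T.Gr]
    ring
  · simp only [T.F1 hq]
    rw [Finset.sum_sub_distrib, Finset.sum_sub_distrib, D_sum]
    have h1 : (fun m => ∑ a, ∑ h, G (u ++ [a] ++ h :: m)) = fun m => Q u * G m := by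
      funext m
      have := T.Gm u m
      simpa using this
    have h2 : ∑ x, ∑ h, E (u ++ [x] ++ h :: q) = Q u * E q := by
      have := T.Em u q
      simpa using this
    have h3 : ∑ x, G (u ++ [x] ++ q) = ∑ k, G (u ++ k :: q) := by
      apply Finset.sum_congr rfl
      intro k _
      simp
    rw [h1, h2, h3, D_mul]
    ring

theorem Tail.baseA {Q G E F : List (Fin 3) → ℝ} {q : List (Fin 3)} (T : Tail Q G E F q)
    (hQ : TC.WLaw Q) {p : List (Fin 3)} (hp : TC.Proper p) (hq : TC.Proper q)
    (y : List (Fin 3)) :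
    (∑ x, (D (fun z => ∑ h, G (y ++ h :: z)) (p ++ x :: q) - G (y ++ (p ++ x :: q)) -
        ∑ h, E (y ++ h :: (p ++ x :: q)))) +
      (if p = [] then 0 else D (fun z => ∑ h, ∑ k, F (y ++ h :: (z ++ [k]))) p -
        (∑ k, F (y ++ p ++ [k])) - ∑ h, F (y ++ h :: p)) =
      (D (fun z => ∑ h, Q (y ++ h :: z)) p - Q (y ++ p)) * (D G q - E q) := by
  have hg : ∀ w, ¬ TC.Proper w → (fun z => ∑ h, G (y ++ h :: z)) w = 0 := by
    intro w hw
    apply Finset.sum_eq_zero
    intro h _
    apply T.G0
    have := TC.not_proper_right (x := y ++ [h]) hw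
    simpa using this
  rw [Finset.sum_sub_distrib, Finset.sum_sub_distrib, D_mid_sum hg hp hq]
  by_cases hp0 : p = []
  · subst hp0
    have h1 : (fun m => ∑ a, ∑ h, G (y ++ h :: ([] ++ a :: m))) = fun m => Q y * G m := by
      funext m
      rw [Finset.sum_comm]
      exact T.Gm y m
    have h2 : ∑ x, ∑ h, E (y ++ h :: ([] ++ x :: q)) = Q y * E q := by
      rw [Finset.sum_comm]
      exact T.Em y q
    have h4 : ∑ h, Q (y ++ [h]) = Q y := hQ.right y
    rw [h1, h2, D_nil (fun z => ∑ h, Q (y ++ h :: z))]
    simp only [sdel, List.nil_append, List.append_nil, if_true, h4]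
    rw [TC.sdel_mul]
    by_cases hq0 : q = []
    · subst hq0
      rw [D_nil G]
      simp only [sdel, if_true]
      rw [T.Gr]
      ring
    · rw [D_proper G hq0 hq, if_neg hq0]
      ring
  · rw [if_neg hp0, if_neg hp0]
    have hR : D (fun z => ∑ h, ∑ k, F (y ++ h :: (z ++ [k]))) p =
        D (fun z => ∑ h, Q (y ++ h :: z)) p * (D G q - E q) -
          sdel (fun m => ∑ a, ∑ h, G (y ++ h :: (m ++ a :: q))) p := by
      have e : (fun z => ∑ h, ∑ k, F (y ++ h :: (z ++ [k]))) = fun z =>
          (D G q - E q) * (∑ h, Q (y ++ h :: z)) - ∑ a, ∑ h, G (y ++ h :: (z ++ a :: q)) := by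
        funext z
        have : ∀ h, ∑ k, F (y ++ h :: (z ++ [k])) =
            Q (y ++ h :: z) * (D G q - E q) - ∑ k, G (y ++ h :: (z ++ k :: q)) := by
          intro h
          have := T.R (y ++ h :: z)
          simpa using this
        simp only [this]
        rw [Finset.sum_sub_distrib, ← Finset.sum_mul, Finset.sum_comm]
        ring
      rw [e, D_sub, D_mul, D_proper (fun z => ∑ a, ∑ h, G (y ++ h :: (z ++ a :: q))) hp0 hp]
      ring
    have hR2 : ∑ k, F (y ++ p ++ [k]) = Q (y ++ p) * (D G q - E q) -
        ∑ x, G (y ++ (p ++ x :: q)) := by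
      rw [T.R (y ++ p)]
      congr 1
      apply Finset.sum_congr rfl
      intro k _
      simp
    rw [hR, hR2]
    by_cases hq0 : q = []
    · have hF : ∑ h, F (y ++ h :: p) = (∑ h, G (y ++ h :: (p ++ q))) -
          ∑ x, ∑ h, E (y ++ h :: (p ++ x :: q)) := by
        simp only [T.F2 hq0]
        rw [Finset.sum_sub_distrib]
        subst hq0
        congr 1
        · simp
        · rw [Finset.sum_comm]
          simp
      rw [hF, if_pos hq0]
      subst hq0
      simp only [sdel]
      ring
    · have hF : ∑ h, F (y ++ h :: p) = sdel (fun m => ∑ a, ∑ h, G (y ++ h :: (p ++ a :: m))) q -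
          (∑ h, G (y ++ h :: (p ++ q))) - ∑ x, ∑ h, E (y ++ h :: (p ++ x :: q)) := by
        simp only [T.F1 hq0]
        rw [Finset.sum_sub_distrib, Finset.sum_sub_distrib, D_sum, D_proper _ hq0 hq]
        congr 1
        · congr 1
          · congr 1
            funext m
            rw [Finset.sum_comm]
            simp
          · simp
        · rw [Finset.sum_comm]
          simp
      rw [hF, if_neg hq0]
      ring

theorem Tail.baseB {Q G E F : List (Fin 3) → ℝ} {q : List (Fin 3)} (T : Tail Q G E F q)
    (hQ : TC.WLaw Q) {p : List (Fin 3)} (hp : TC.Proper p) (hq : TC.Proper q) :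
    (∑ x, (D G (p ++ x :: q) - E (p ++ x :: q))) +
      (D (fun z => ∑ k, F (z ++ [k])) p - F p) = D Q p * (D G q - E q) := by
  rw [Finset.sum_sub_distrib, D_mid_sum T.G0 hp hq]
  have hR : (fun z => ∑ k, F (z ++ [k])) = fun z =>
      (D G q - E q) * Q z - ∑ k, G (z ++ k :: q) := by
    funext z
    rw [T.R z]; ring
  rw [hR, D_sub, D_mul]
  by_cases hp0 : p = []
  · subst hp0
    rw [D_nil, D_nil, hQ.nil]
    simp only [List.nil_append, sdel, if_true, T.Gl, T.El]
    by_cases hq0 : q = []
    · have hF := T.F2 hq0 []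
      simp only [List.nil_append] at hF
      have hEl := T.El []
      rw [hF, hEl]
      subst hq0
      rw [D_nil, if_pos rfl]
      simp only [sdel]
      ring
    · have hF := T.F1 hq0 []
      simp only [List.nil_append, T.Gl, T.El] at hF
      rw [hF, if_neg hq0, D_proper G hq0 hq]
      ring
  · rw [if_neg hp0, D_proper Q hp0 hp, D_proper _ hp0 hp]
    by_cases hq0 : q = []
    · have hF := T.F2 hq0 p
      rw [hF, if_pos hq0]
      subst hq0
      simp only [sdel, List.append_nil]
      ring
    · have hF := T.F1 hq0 p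
      rw [hF, if_neg hq0, D_proper G hq0 hq, D_proper (fun m => ∑ h, G (p ++ h :: m)) hq0 hq]
      ring

end Pool.Agent.H588R3.BR
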