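import Mathlib
import Pool.Agent.H588R3.BR.Theta

set_option autoImplicit false

/-!
# The weights of the 4-colouring built from a 3-colouring
-/

namespace Pool.Agent.H588R3.BR

open TC (sdel)

variable {Q : List (Fin 3) → ℝ}

/-- The functional attached to a word preceded by the extra colour. -/
noncomputable def FA (Q : List (Fin 3) → ℝ) :
    List (Option (Fin 3)) → List (Fin 3) → List (Fin 3) → ℝ
  | [], w, y => D (fun z => ∑ h, Q (y ++ h :: z)) w - Q (y ++ w)
  | some x :: v, w, y => FA Q v (w ++ [x]) y
  | none :: v, w, y => if w = [] then 0 else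
      D (fun z => ∑ h, ∑ k, FA Q v [] (y ++ h :: (z ++ [k]))) w
        - (∑ k, FA Q v [] (y ++ w ++ [k])) - ∑ h, FA Q v [] (y ++ h :: w)

/-- The weight of a word. -/
noncomputable def SA (Q : List (Fin 3) → ℝ) : List (Option (Fin 3)) → List (Fin 3) → ℝ
  | [], w => D Q w
  | some x :: v, w => SA Q v (w ++ [x])
  | none :: v, w => D (fun z => ∑ k, FA Q v [] (z ++ [k])) w - FA Q v [] w

/-- Good functionals. -/
structure Good (Q F : List (Fin 3) → ℝ) : Prop where
  nonneg : ∀ y, 0 ≤ F y
  improper : ∀ y, ¬ TC.Proper y → F y = 0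
  left : ∀ y, ∑ h, F (h :: y) = F y
  mid : ∀ y z, ∑ h, ∑ k, F (y ++ h :: k :: z) = Q y * F z

theorem sdel_ge_first {g : List (Fin 3) → ℝ} (hg : ∀ m, 0 ≤ g m) (a : Fin 3)
    (w : List (Fin 3)) : g w ≤ sdel g (a :: w) := by
  simp only [sdel]
  have := TC.sdel_nonneg (fun m => g (a :: m)) (fun m => hg _) w
  linarith

theorem sdel_ge_last {g : List (Fin 3) → ℝ} (hg : ∀ m, 0 ≤ g m) (a : Fin 3)
    (w : List (Fin 3)) : g w ≤ sdel g (w ++ [a]) := by
  rw [TC.sdel_append]
  have := TC.sdel_nonneg (fun m => g (m ++ [a])) (fun m => hg _) w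
  simp only [sdel, List.append_nil]
  linarith

theorem sdel_ge_both {g : List (Fin 3) → ℝ} (hg : ∀ m, 0 ≤ g m) (a b : Fin 3)
    (w : List (Fin 3)) : g (w ++ [b]) + g (a :: w) ≤ sdel g (a :: (w ++ [b])) := by
  simp only [sdel]
  have := sdel_ge_last (g := fun m => g (a :: m)) (fun m => hg _) b w
  linarith

theorem single_le {f : Fin 3 → ℝ} (hf : ∀ i, 0 ≤ f i) (a : Fin 3) : f a ≤ ∑ i, f i :=
  Finset.single_le_sum (fun i _ => hf i) (Finset.mem_univ a)

theorem good_base (hQ : TC.WLaw Q) (w : List (Fin 3)) : Good Q (FA Q [] w) := by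
  refine ⟨?_, ?_, ?_, ?_⟩
  · intro y
    simp only [FA]
    by_cases h0 : w = []
    · subst h0
      rw [D_nil]
      have h1 : ∑ h, Q (y ++ [h]) = Q y := hQ.right y
      rw [h1, List.append_nil]
      have := hQ.nonneg y
      linarith
    · by_cases hw : TC.Proper w
      · rw [D_proper _ h0 hw]
        cases w with
        | nil => exact absurd rfl h0
        | cons a w =>
          have h1 := sdel_ge_first (g := fun z => ∑ h, Q (y ++ h :: z))
            (fun m => Finset.sum_nonneg (fun h _ => hQ.nonneg _)) a w
          have h2 := single_le (f := fun h => Q (y ++ h :: w)) (fun h => hQ.nonneg _) a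
          try simp only at h1 h2
          linarith
      · rw [D_improper _ hw, hQ.improper _ (TC.not_proper_right hw)]
        simp
  · intro y hy
    simp only [FA]
    have : (fun z => ∑ h, Q (y ++ h :: z)) = fun _ => (0 : ℝ) := by
      funext z
      apply Finset.sum_eq_zero
      intro h _
      exact hQ.improper _ (TC.not_proper_left hy)
    rw [this, D_zero, hQ.improper _ (TC.not_proper_left hy)]
    ring
  · intro y
    simp only [FA]
    rw [Finset.sum_sub_distrib, D_sum]
    have : (fun m => ∑ a, ∑ h, Q (a :: y ++ h :: m)) = fun z => ∑ h, Q (y ++ h :: z) := by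
      funext m
      rw [Finset.sum_comm]
      apply Finset.sum_congr rfl
      intro h _
      exact hQ.left (y ++ h :: m)
    rw [this]
    congr 1
    exact hQ.left (y ++ w)
  · intro y z
    simp only [FA]
    have e1 : ∀ h : Fin 3, ∑ k, (D (fun z_1 => ∑ h_1, Q (y ++ h :: k :: z ++ h_1 :: z_1)) w -
        Q (y ++ h :: k :: z ++ w)) = D (fun m => ∑ k, ∑ j, Q (y ++ h :: k :: z ++ j :: m)) w -
        ∑ k, Q (y ++ h :: k :: z ++ w) := by
      intro h
      rw [Finset.sum_sub_distrib, D_sum]
    simp only [e1]
    rw [Finset.sum_sub_distrib, D_sum]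
    have e2 : (fun m => ∑ h, ∑ k, ∑ j, Q (y ++ h :: k :: z ++ j :: m)) =
        fun m => Q y * ∑ j, Q (z ++ j :: m) := by
      funext m
      rw [Finset.mul_sum]
      have : ∀ h : Fin 3, ∑ k, ∑ j, Q (y ++ h :: k :: z ++ j :: m) =
          ∑ j, ∑ k, Q (y ++ h :: k :: z ++ j :: m) := fun h => Finset.sum_comm
      simp only [this]
      rw [Finset.sum_comm]
      apply Finset.sum_congr rfl
      intro j _
      have := hQ.mid y (z ++ j :: m)
      simpa using this
    have e3 : ∑ h, ∑ k, Q (y ++ h :: k :: z ++ w) = Q y * Q (z ++ w) := by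
      have := hQ.mid y (z ++ w)
      simpa using this
    rw [e2, e3, D_mul]
    ring

theorem good_none {F : List (Fin 3) → ℝ} (hF : Good Q F) {w : List (Fin 3)} (h0 : w ≠ []) :
    Good Q (fun y => D (fun z => ∑ h, ∑ k, F (y ++ h :: (z ++ [k]))) w
        - (∑ k, F (y ++ w ++ [k])) - ∑ h, F (y ++ h :: w)) := by
  refine ⟨?_, ?_, ?_, ?_⟩
  · intro y
    try simp only
    by_cases hw : TC.Proper w
    · rw [D_proper _ h0 hw]
      have hnn : ∀ m : List (Fin 3), 0 ≤ (fun z => ∑ h, ∑ k, F (y ++ h :: (z ++ [k]))) m :=
        fun m => Finset.sum_nonneg (fun h _ => Finset.sum_nonneg (fun k _ => hF.nonneg _))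
      cases w with
      | nil => exact absurd rfl h0
      | cons a w =>
        rcases List.eq_nil_or_concat w with rfl | ⟨w', b, rfl⟩
        · simp only [sdel, List.nil_append, add_zero]
          have hz : F (y ++ [a, a]) = 0 := hF.improper _ (TC.not_proper_double y [] a)
          have e1 : ∑ k, F (y ++ [a] ++ [k]) = ∑ k, F (y ++ [a, k]) := by simp
          rw [e1]
          -- rows
          have key : ∀ h : Fin 3, (if h = a then ∑ k, F (y ++ [a, k]) else 0) + F (y ++ [h, a]) ≤
              ∑ k, F (y ++ [h, k]) := by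
            intro h
            by_cases hh : h = a
            · subst hh
              rw [if_pos rfl, hz, add_zero]
            · rw [if_neg hh, zero_add]
              exact single_le (f := fun k => F (y ++ [h, k])) (fun k => hF.nonneg _) a
          have h3 := Finset.sum_le_sum (fun h (_ : h ∈ Finset.univ) => key h)
          rw [Finset.sum_add_distrib, Finset.sum_ite_eq' Finset.univ a] at h3
          simp only [Finset.mem_univ, if_true] at h3
          linarith
        · simp only [List.concat_eq_append] at hw ⊢
          have h1 := sdel_ge_both hnn a b w'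
          try simp only at h1
          have h2 : ∑ k, F (y ++ a :: (w' ++ [b]) ++ [k]) ≤
              ∑ h, ∑ k, F (y ++ h :: (w' ++ [b] ++ [k])) := by
            have := single_le (f := fun h => ∑ k, F (y ++ h :: (w' ++ [b] ++ [k])))
              (fun h => Finset.sum_nonneg (fun k _ => hF.nonneg _)) a
            simpa using this
          have h3 : ∑ h, F (y ++ h :: a :: (w' ++ [b])) ≤
              ∑ h, ∑ k, F (y ++ h :: (a :: w' ++ [k])) := by
            apply Finset.sum_le_sum
            intro h _
            have := single_le (f := fun k => F (y ++ h :: (a :: w' ++ [k])))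
              (fun k => hF.nonneg _) b
            simpa using this
          linarith
    · rw [D_improper _ hw]
      have e1 : ∑ k, F (y ++ w ++ [k]) = 0 := by
        apply Finset.sum_eq_zero
        intro k _
        exact hF.improper _ (TC.not_proper_left (TC.not_proper_right hw))
      have e2 : ∑ h, F (y ++ h :: w) = 0 := by
        apply Finset.sum_eq_zero
        intro h _
        have := TC.not_proper_right (x := y ++ [h]) hw
        apply hF.improper
        simpa using this
      rw [e1, e2]; simp
  · intro y hy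
    try simp only
    have e0 : (fun z => ∑ h, ∑ k, F (y ++ h :: (z ++ [k]))) = fun _ => (0 : ℝ) := by
      funext z
      apply Finset.sum_eq_zero
      intro h _
      apply Finset.sum_eq_zero
      intro k _
      exact hF.improper _ (TC.not_proper_left hy)
    have e1 : ∑ k, F (y ++ w ++ [k]) = 0 := by
      apply Finset.sum_eq_zero
      intro k _
      exact hF.improper _ (TC.not_proper_left (TC.not_proper_left hy))
    have e2 : ∑ h, F (y ++ h :: w) = 0 := by
      apply Finset.sum_eq_zero
      intro h _
      exact hF.improper _ (TC.not_proper_left hy)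
    rw [e0, D_zero, e1, e2]; ring
  · intro y
    try simp only
    rw [Finset.sum_sub_distrib, Finset.sum_sub_distrib, D_sum]
    have e0 : (fun m => ∑ a, ∑ h, ∑ k, F (a :: y ++ h :: (m ++ [k]))) =
        fun z => ∑ h, ∑ k, F (y ++ h :: (z ++ [k])) := by
      funext m
      rw [Finset.sum_comm]
      apply Finset.sum_congr rfl
      intro h _
      rw [Finset.sum_comm]
      apply Finset.sum_congr rfl
      intro k _
      exact hF.left (y ++ h :: (m ++ [k]))
    have e1 : ∑ a, ∑ k, F (a :: y ++ w ++ [k]) = ∑ k, F (y ++ w ++ [k]) := by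
      rw [Finset.sum_comm]
      apply Finset.sum_congr rfl
      intro k _
      exact hF.left (y ++ w ++ [k])
    have e2 : ∑ a, ∑ h, F (a :: y ++ h :: w) = ∑ h, F (y ++ h :: w) := by
      rw [Finset.sum_comm]
      apply Finset.sum_congr rfl
      intro h _
      exact hF.left (y ++ h :: w)
    rw [e0, e1, e2]
  · intro y z
    try simp only
    have e : ∀ g : List (Fin 3) → ℝ, (∀ m, g m = ∑ h, ∑ k, F (y ++ h :: k :: m)) →
        ∀ m, g m = Q y * F m := fun g hg m => (hg m).trans (hF.mid y m)
    have e1 : ∀ h : Fin 3, ∑ k, (D (fun z_1 => ∑ i, ∑ j, F (y ++ h :: k :: z ++ i :: (z_1 ++ [j]))) w -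
        (∑ j, F (y ++ h :: k :: z ++ w ++ [j])) - ∑ i, F (y ++ h :: k :: z ++ i :: w)) =
        D (fun m => ∑ k, ∑ i, ∑ j, F (y ++ h :: k :: z ++ i :: (m ++ [j]))) w -
        (∑ k, ∑ j, F (y ++ h :: k :: z ++ w ++ [j])) -
        ∑ k, ∑ i, F (y ++ h :: k :: z ++ i :: w) := by
      intro h
      rw [Finset.sum_sub_distrib, Finset.sum_sub_distrib, D_sum]
    simp only [e1]
    rw [Finset.sum_sub_distrib, Finset.sum_sub_distrib, D_sum]
    have s0 : (fun m => ∑ h, ∑ k, ∑ i, ∑ j, F (y ++ h :: k :: z ++ i :: (m ++ [j]))) =
        fun m => Q y * ∑ i, ∑ j, F (z ++ i :: (m ++ [j])) := by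
      funext m
      have : ∀ h : Fin 3, ∑ k, ∑ i, ∑ j, F (y ++ h :: k :: z ++ i :: (m ++ [j])) =
          ∑ i, ∑ j, ∑ k, F (y ++ h :: k :: z ++ i :: (m ++ [j])) := by
        intro h
        rw [Finset.sum_comm]
        apply Finset.sum_congr rfl
        intro i _
        rw [Finset.sum_comm]
      simp only [this]
      rw [Finset.sum_comm, Finset.mul_sum]
      apply Finset.sum_congr rfl
      intro i _
      rw [Finset.sum_comm, Finset.mul_sum]
      apply Finset.sum_congr rfl
      intro j _
      have := hF.mid y (z ++ i :: (m ++ [j]))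
      simpa using this
    have s1 : ∑ h, ∑ k, ∑ j, F (y ++ h :: k :: z ++ w ++ [j]) =
        Q y * ∑ j, F (z ++ w ++ [j]) := by
      have : ∀ h : Fin 3, ∑ k, ∑ j, F (y ++ h :: k :: z ++ w ++ [j]) =
          ∑ j, ∑ k, F (y ++ h :: k :: z ++ w ++ [j]) := fun h => Finset.sum_comm
      simp only [this]
      rw [Finset.sum_comm, Finset.mul_sum]
      apply Finset.sum_congr rfl
      intro j _
      have := hF.mid y (z ++ w ++ [j])
      simpa using this
    have s2 : ∑ h, ∑ k, ∑ i, F (y ++ h :: k :: z ++ i :: w) =
        Q y * ∑ i, F (z ++ i :: w) := by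
      have : ∀ h : Fin 3, ∑ k, ∑ i, F (y ++ h :: k :: z ++ i :: w) =
          ∑ i, ∑ k, F (y ++ h :: k :: z ++ i :: w) := fun h => Finset.sum_comm
      simp only [this]
      rw [Finset.sum_comm, Finset.mul_sum]
      apply Finset.sum_congr rfl
      intro i _
      have := hF.mid y (z ++ i :: w)
      simpa using this
    rw [s0, s1, s2, D_mul]
    ring

theorem good_zero : Good Q (fun _ => 0) :=
  ⟨fun _ => le_rfl, fun _ _ => rfl, fun _ => by simp, fun _ _ => by simp⟩

theorem good_FA (hQ : TC.WLaw Q) : ∀ (v : List (Option (Fin 3))) (w : List (Fin 3)),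
    Good Q (FA Q v w) := by
  intro v
  induction v with
  | nil => exact good_base hQ
  | cons c v ih =>
    intro w
    cases c with
    | some x => exact ih (w ++ [x])
    | none =>
      by_cases h0 : w = []
      · have : FA Q (none :: v) w = fun _ => 0 := by
          funext y
          simp only [FA]
          rw [if_pos h0]
        rw [this]
        exact good_zero
      · have : FA Q (none :: v) w = fun y =>
            D (fun z => ∑ h, ∑ k, FA Q v [] (y ++ h :: (z ++ [k]))) w
            - (∑ k, FA Q v [] (y ++ w ++ [k])) - ∑ h, FA Q v [] (y ++ h :: w) := by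
          funext y
          simp only [FA]
          rw [if_neg h0]
        rw [this]
        exact good_none (ih []) h0

theorem SA_nonneg (hQ : TC.WLaw Q) : ∀ (v : List (Option (Fin 3))) (w : List (Fin 3)),
    0 ≤ SA Q v w := by
  intro v
  induction v with
  | nil =>
    intro w
    simp only [SA]
    unfold D
    split_ifs
    · have := hQ.nonneg []
      linarith
    · exact TC.sdel_nonneg _ hQ.nonneg _
    · exact le_rfl
  | cons c v ih =>
    intro w
    cases c with
    | some x => exact ih (w ++ [x])
    | none =>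
      simp only [SA]
      have hF := good_FA hQ v []
      by_cases h0 : w = []
      · subst h0
        rw [D_nil]
        have h1 : ∑ k, FA Q v [] ([] ++ [k]) = FA Q v [] [] := hF.left []
        rw [h1]
        have := hF.nonneg []
        linarith
      · by_cases hw : TC.Proper w
        · rw [D_proper _ h0 hw]
          rcases List.eq_nil_or_concat w with rfl | ⟨w', b, rfl⟩
          · exact absurd rfl h0
          · simp only [List.concat_eq_append] at hw ⊢
            have h1 := sdel_ge_last (g := fun z => ∑ k, FA Q v [] (z ++ [k]))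
              (fun m => Finset.sum_nonneg (fun k _ => hF.nonneg _)) b w'
            have h2 := single_le (f := fun k => FA Q v [] (w' ++ [k])) (fun k => hF.nonneg _) b
            try simp only at h1 h2
            linarith
        · rw [D_improper _ hw, hF.improper _ hw]; simp

end Pool.Agent.H588R3.BR
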