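import Mathlib
import Pool.Agent.H588R3.BR.Theta2

set_option autoImplicit false

/-!
# The product rule for the weights of the 4-colouring
-/

namespace Pool.Agent.H588R3.BR

open TC (sdel)

variable {Q : List (Fin 3) → ℝ}

theorem FA_map (Q : List (Fin 3) → ℝ) (v : List (Option (Fin 3))) :
    ∀ q w : List (Fin 3), FA Q (q.map some ++ v) w = FA Q v (w ++ q) := by
  intro q
  induction q with
  | nil => intro w; simp
  | cons x q ih =>
    intro w
    have : FA Q ((x :: q).map some ++ v) w = FA Q (q.map some ++ v) (w ++ [x]) := by
      funext y
      rfl
    rw [this, ih]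
    simp

theorem SA_map (Q : List (Fin 3) → ℝ) (v : List (Option (Fin 3))) :
    ∀ q w : List (Fin 3), SA Q (q.map some ++ v) w = SA Q v (w ++ q) := by
  intro q
  induction q with
  | nil => intro w; simp
  | cons x q ih =>
    intro w
    have : SA Q ((x :: q).map some ++ v) w = SA Q (q.map some ++ v) (w ++ [x]) := rfl
    rw [this, ih]
    simp

theorem improperA (hQ : TC.WLaw Q) : ∀ (v : List (Option (Fin 3))) (w : List (Fin 3)),
    ¬ TC.Proper w → (∀ y, FA Q v w y = 0) ∧ SA Q v w = 0 := by
  intro v
  induction v with
  | nil =>
    intro w hw
    refine ⟨fun y => ?_, ?_⟩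
    · simp only [FA]
      rw [D_improper _ hw, hQ.improper _ (TC.not_proper_right hw)]; ring
    · simp only [SA]
      exact D_improper _ hw
  | cons c v ih =>
    intro w hw
    cases c with
    | some x => exact ih (w ++ [x]) (TC.not_proper_left hw)
    | none =>
      have hF := good_FA hQ v []
      refine ⟨fun y => ?_, ?_⟩
      · simp only [FA]
        split_ifs
        · rfl
        · have e1 : ∑ k, FA Q v [] (y ++ w ++ [k]) = 0 := by
            apply Finset.sum_eq_zero
            intro k _
            exact hF.improper _ (TC.not_proper_left (TC.not_proper_right hw))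
          have e2 : ∑ h, FA Q v [] (y ++ h :: w) = 0 := by
            apply Finset.sum_eq_zero
            intro h _
            have := TC.not_proper_right (x := y ++ [h]) hw
            apply hF.improper
            simpa using this
          rw [D_improper _ hw, e1, e2]; ring
      · simp only [SA]
        rw [D_improper _ hw, hF.improper _ hw]; ring

theorem tail_nil (hQ : TC.WLaw Q) (q : List (Fin 3)) : Tail Q Q (fun _ => 0) (FA Q [] q) q := by
  refine ⟨hQ.improper, fun _ _ => rfl, hQ.left, fun _ => by simp, hQ.mid, fun _ _ => by simp,
    ?_, ?_, ?_⟩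
  · intro y
    rw [hQ.right, hQ.nil, mul_one]
  · intro _ z
    simp only [FA]
    simp
  · intro hq z
    subst hq
    simp only [FA]
    have h1 : ∑ h, Q (z ++ [h]) = Q z := hQ.right z
    rw [D_nil, h1]
    simp
    ring

theorem tail_none (hQ : TC.WLaw Q) (v : List (Option (Fin 3))) (q : List (Fin 3)) :
    Tail Q (fun z => ∑ k, FA Q v [] (z ++ [k])) (FA Q v []) (FA Q (none :: v) q) q := by
  have hF := good_FA hQ v []
  refine ⟨?_, hF.improper, ?_, hF.left, ?_, hF.mid, ?_, ?_, ?_⟩
  · intro y hy
    apply Finset.sum_eq_zero
    intro k _
    exact hF.improper _ (TC.not_proper_left hy)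
  · intro y
    rw [Finset.sum_comm]
    apply Finset.sum_congr rfl
    intro k _
    exact hF.left (y ++ [k])
  · intro y z
    have : ∀ h : Fin 3, ∑ k, ∑ j, FA Q v [] (y ++ h :: k :: z ++ [j]) =
        ∑ j, ∑ k, FA Q v [] (y ++ h :: k :: z ++ [j]) := fun h => Finset.sum_comm
    simp only [this]
    rw [Finset.sum_comm, Finset.mul_sum]
    apply Finset.sum_congr rfl
    intro j _
    have := hF.mid y (z ++ [j])
    simpa using this
  · intro y
    have h1 : ∑ k, FA Q v [] ([] ++ [k]) = FA Q v [] [] := hF.left []
    rw [h1]
    have := hF.mid y []
    simpa using this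
  · intro hq z
    simp only [FA]
    rw [if_neg hq]
    simp
  · intro hq z
    simp only [FA]
    rw [if_pos hq]
    simp

theorem stepA (hQ : TC.WLaw Q) (p y : List (Fin 3)) : ∀ (v : List (Option (Fin 3)))
    (q : List (Fin 3)), (∑ x, FA Q v (p ++ x :: q) y) + FA Q (none :: (q.map some ++ v)) p y =
      FA Q [] p y * SA Q v q := by
  -- reduction to the tail lemma
  have red : ∀ (v : List (Option (Fin 3))) (q : List (Fin 3)) (G E : List (Fin 3) → ℝ),
      Tail Q G E (FA Q v q) q →
      (∀ r : List (Fin 3), r ≠ [] → FA Q v r y = D (fun m => ∑ h, G (y ++ h :: m)) r - G (y ++ r) -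
        ∑ h, E (y ++ h :: r)) → SA Q v q = D G q - E q →
      (∑ x, FA Q v (p ++ x :: q) y) + FA Q (none :: (q.map some ++ v)) p y =
      FA Q [] p y * SA Q v q := by
    intro v q G E T hFA hSA
    by_cases hp : TC.Proper p
    · by_cases hq : TC.Proper q
      · have h1 := T.baseA hQ hp hq y
        have h2 : ∀ x : Fin 3, FA Q v (p ++ x :: q) y =
            D (fun z => ∑ h, G (y ++ h :: z)) (p ++ x :: q) - G (y ++ (p ++ x :: q)) -
              ∑ h, E (y ++ h :: (p ++ x :: q)) := fun x => hFA _ (by simp)
        have h3 : FA Q (none :: (q.map some ++ v)) p y =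
            (if p = [] then 0 else D (fun z => ∑ h, ∑ k, FA Q v q (y ++ h :: (z ++ [k]))) p -
              (∑ k, FA Q v q (y ++ p ++ [k])) - ∑ h, FA Q v q (y ++ h :: p)) := by
          show (if p = [] then 0 else
            D (fun z => ∑ h, ∑ k, FA Q (q.map some ++ v) [] (y ++ h :: (z ++ [k]))) p
              - (∑ k, FA Q (q.map some ++ v) [] (y ++ p ++ [k])) -
              ∑ h, FA Q (q.map some ++ v) [] (y ++ h :: p)) = _
          rw [FA_map Q v q [], List.nil_append]
        have h4 : FA Q [] p y = D (fun z => ∑ h, Q (y ++ h :: z)) p - Q (y ++ p) := rfl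
        rw [Finset.sum_congr rfl (fun x _ => h2 x), h3, h4, hSA]
        exact h1
      · have h1 := improperA hQ v q hq
        have h2 : ∀ x : Fin 3, FA Q v (p ++ x :: q) y = 0 := by
          intro x
          apply (improperA hQ v _ _).1
          have := TC.not_proper_right (x := p ++ [x]) hq
          simpa using this
        have h3 : FA Q (none :: (q.map some ++ v)) p y = 0 := by
          show (if p = [] then 0 else
            D (fun z => ∑ h, ∑ k, FA Q (q.map some ++ v) [] (y ++ h :: (z ++ [k]))) p
              - (∑ k, FA Q (q.map some ++ v) [] (y ++ p ++ [k])) -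
              ∑ h, FA Q (q.map some ++ v) [] (y ++ h :: p)) = _
          rw [FA_map Q v q [], List.nil_append]
          simp only [h1.1, Finset.sum_const_zero, D_zero]
          simp
        rw [Finset.sum_congr rfl (fun x _ => h2 x), h3, h1.2]
        simp
    · have h2 : ∀ x : Fin 3, FA Q v (p ++ x :: q) y = 0 := by
        intro x
        exact (improperA hQ v _ (TC.not_proper_left hp)).1 y
      rw [Finset.sum_congr rfl (fun x _ => h2 x), (improperA hQ _ p hp).1 y,
        (improperA hQ [] p hp).1 y]
      simp
  intro v
  induction v with
  | nil =>
    intro q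
    apply red [] q Q (fun _ => 0) (tail_nil hQ q)
    · intro r _
      simp only [FA]
      simp
    · simp only [SA]
      ring
  | cons c v ih =>
    intro q
    cases c with
    | some x' =>
      have h := ih (q ++ [x'])
      have e1 : (q ++ [x']).map some ++ v = q.map some ++ some x' :: v := by simp
      rw [e1] at h
      have e2 : ∀ x : Fin 3, FA Q (some x' :: v) (p ++ x :: q) y =
          FA Q v (p ++ x :: (q ++ [x'])) y := by
        intro x
        show FA Q v (p ++ x :: q ++ [x']) y = _
        simp
      rw [Finset.sum_congr rfl (fun x _ => e2 x)]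
      exact h
    | none =>
      apply red (none :: v) q (fun z => ∑ k, FA Q v [] (z ++ [k])) (FA Q v []) (tail_none hQ v q)
      · intro r hr
        exact (tail_none hQ v r).F1 hr y
      · rfl

theorem stepB (hQ : TC.WLaw Q) (p : List (Fin 3)) : ∀ (v : List (Option (Fin 3)))
    (q : List (Fin 3)), (∑ x, SA Q v (p ++ x :: q)) + SA Q (none :: (q.map some ++ v)) p =
      SA Q [] p * SA Q v q := by
  have red : ∀ (v : List (Option (Fin 3))) (q : List (Fin 3)) (G E : List (Fin 3) → ℝ),
      Tail Q G E (FA Q v q) q → (∀ r : List (Fin 3), SA Q v r = D G r - E r) →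
      (∑ x, SA Q v (p ++ x :: q)) + SA Q (none :: (q.map some ++ v)) p =
      SA Q [] p * SA Q v q := by
    intro v q G E T hSA
    by_cases hp : TC.Proper p
    · by_cases hq : TC.Proper q
      · have h1 := T.baseB hQ hp hq
        have h3 : SA Q (none :: (q.map some ++ v)) p =
            D (fun z => ∑ k, FA Q v q (z ++ [k])) p - FA Q v q p := by
          show D (fun z => ∑ k, FA Q (q.map some ++ v) [] (z ++ [k])) p -
            FA Q (q.map some ++ v) [] p = _
          rw [FA_map Q v q [], List.nil_append]
        have h4 : SA Q [] p = D Q p := rfl
        rw [Finset.sum_congr rfl (fun x _ => hSA (p ++ x :: q)), h3, h4, hSA q]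
        exact h1
      · have h1 := improperA hQ v q hq
        have h2 : ∀ x : Fin 3, SA Q v (p ++ x :: q) = 0 := by
          intro x
          apply (improperA hQ v _ _).2
          have := TC.not_proper_right (x := p ++ [x]) hq
          simpa using this
        have h3 : SA Q (none :: (q.map some ++ v)) p = 0 := by
          show D (fun z => ∑ k, FA Q (q.map some ++ v) [] (z ++ [k])) p -
            FA Q (q.map some ++ v) [] p = _
          rw [FA_map Q v q [], List.nil_append]
          simp only [h1.1, Finset.sum_const_zero, D_zero]
          simp
        rw [Finset.sum_congr rfl (fun x _ => h2 x), h3, h1.2]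
        simp
    · have h2 : ∀ x : Fin 3, SA Q v (p ++ x :: q) = 0 := by
        intro x
        exact (improperA hQ v _ (TC.not_proper_left hp)).2
      rw [Finset.sum_congr rfl (fun x _ => h2 x), (improperA hQ _ p hp).2,
        (improperA hQ [] p hp).2]
      simp
  intro v
  induction v with
  | nil =>
    intro q
    apply red [] q Q (fun _ => 0) (tail_nil hQ q)
    intro r
    simp only [SA]
    ring
  | cons c v ih =>
    intro q
    cases c with
    | some x' =>
      have h := ih (q ++ [x'])
      have e1 : (q ++ [x']).map some ++ v = q.map some ++ some x' :: v := by simp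
      rw [e1] at h
      have e2 : ∀ x : Fin 3, SA Q (some x' :: v) (p ++ x :: q) =
          SA Q v (p ++ x :: (q ++ [x'])) := by
        intro x
        show SA Q v (p ++ x :: q ++ [x']) = _
        simp
      rw [Finset.sum_congr rfl (fun x _ => e2 x)]
      exact h
    | none =>
      apply red (none :: v) q (fun z => ∑ k, FA Q v [] (z ++ [k])) (FA Q v []) (tail_none hQ v q)
      intro r
      rfl

theorem FA_prod (hQ : TC.WLaw Q) (v : List (Option (Fin 3))) : ∀ (u : List (Option (Fin 3)))
    (w y : List (Fin 3)), ∑ c, FA Q (u ++ c :: v) w y = FA Q u w y * SA Q v [] := by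
  intro u
  induction u with
  | nil =>
    intro w y
    rw [Fintype.sum_option]
    have h := stepA hQ w y v []
    simp only [List.map_nil, List.nil_append] at h ⊢
    rw [← h, add_comm]
    rfl
  | cons c u ih =>
    intro w y
    cases c with
    | some x => exact ih (w ++ [x]) y
    | none =>
      by_cases h0 : w = []
      · have e1 : ∀ c : Option (Fin 3), FA Q (none :: u ++ c :: v) w y = 0 := by
          intro c
          simp only [List.cons_append, FA]
          rw [if_pos h0]
        have e2 : FA Q (none :: u) w y = 0 := by
          simp only [FA]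
          rw [if_pos h0]
        rw [Finset.sum_congr rfl (fun c _ => e1 c), e2]
        simp
      · have e1 : ∀ c : Option (Fin 3), FA Q (none :: u ++ c :: v) w y =
            D (fun z => ∑ h, ∑ k, FA Q (u ++ c :: v) [] (y ++ h :: (z ++ [k]))) w
              - (∑ k, FA Q (u ++ c :: v) [] (y ++ w ++ [k])) -
              ∑ h, FA Q (u ++ c :: v) [] (y ++ h :: w) := by
          intro c
          simp only [List.cons_append, FA]
          rw [if_neg h0]
        have e2 : FA Q (none :: u) w y =
            D (fun z => ∑ h, ∑ k, FA Q u [] (y ++ h :: (z ++ [k]))) w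
              - (∑ k, FA Q u [] (y ++ w ++ [k])) - ∑ h, FA Q u [] (y ++ h :: w) := by
          simp only [FA]
          rw [if_neg h0]
        rw [Finset.sum_congr rfl (fun c _ => e1 c), e2, Finset.sum_sub_distrib,
          Finset.sum_sub_distrib, D_sum]
        have s0 : (fun m => ∑ c, ∑ h, ∑ k, FA Q (u ++ c :: v) [] (y ++ h :: (m ++ [k]))) =
            fun m => SA Q v [] * ∑ h, ∑ k, FA Q u [] (y ++ h :: (m ++ [k])) := by
          funext m
          rw [Finset.sum_comm, Finset.mul_sum]
          apply Finset.sum_congr rfl
          intro h _
          rw [Finset.sum_comm, Finset.mul_sum]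
          apply Finset.sum_congr rfl
          intro k _
          rw [ih, mul_comm]
        have s1 : ∑ c, ∑ k, FA Q (u ++ c :: v) [] (y ++ w ++ [k]) =
            SA Q v [] * ∑ k, FA Q u [] (y ++ w ++ [k]) := by
          rw [Finset.sum_comm, Finset.mul_sum]
          apply Finset.sum_congr rfl
          intro k _
          rw [ih, mul_comm]
        have s2 : ∑ c, ∑ h, FA Q (u ++ c :: v) [] (y ++ h :: w) =
            SA Q v [] * ∑ h, FA Q u [] (y ++ h :: w) := by
          rw [Finset.sum_comm, Finset.mul_sum]
          apply Finset.sum_congr rfl
          intro k _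
          rw [ih, mul_comm]
        rw [s0, s1, s2, D_mul]
        ring

theorem SA_prod (hQ : TC.WLaw Q) (v : List (Option (Fin 3))) : ∀ (u : List (Option (Fin 3)))
    (w : List (Fin 3)), ∑ c, SA Q (u ++ c :: v) w = SA Q u w * SA Q v [] := by
  intro u
  induction u with
  | nil =>
    intro w
    rw [Fintype.sum_option]
    have h := stepB hQ w v []
    simp only [List.map_nil, List.nil_append] at h ⊢
    rw [← h, add_comm]
    rfl
  | cons c u ih =>
    intro w
    cases c with
    | some x => exact ih (w ++ [x])
    | none =>
      have e1 : ∀ c : Option (Fin 3), SA Q (none :: u ++ c :: v) w =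
          D (fun z => ∑ k, FA Q (u ++ c :: v) [] (z ++ [k])) w - FA Q (u ++ c :: v) [] w :=
        fun c => rfl
      have e2 : SA Q (none :: u) w =
          D (fun z => ∑ k, FA Q u [] (z ++ [k])) w - FA Q u [] w := rfl
      rw [Finset.sum_congr rfl (fun c _ => e1 c), e2, Finset.sum_sub_distrib, D_sum,
        FA_prod hQ v u [] w]
      have s0 : (fun m => ∑ c, ∑ k, FA Q (u ++ c :: v) [] (m ++ [k])) =
          fun m => SA Q v [] * ∑ k, FA Q u [] (m ++ [k]) := by
        funext m
        rw [Finset.sum_comm, Finset.mul_sum]
        apply Finset.sum_congr rfl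
        intro k _
        rw [FA_prod hQ v u, mul_comm]
      rw [s0, D_mul]
      ring

theorem improperB (hQ : TC.WLaw Q) : ∀ (v : List (Option (Fin 3))) (w : List (Fin 3)),
    ¬ List.IsChain (· ≠ ·) (w.map some ++ v) → (∀ y, FA Q v w y = 0) ∧ SA Q v w = 0 := by
  intro v
  induction v with
  | nil =>
    intro w hw
    apply improperA hQ
    intro h
    apply hw
    rw [List.append_nil, List.isChain_map]
    refine List.IsChain.imp ?_ h
    intro c d hcd h'
    exact hcd (Option.some_injective _ h')
  | cons c v ih =>
    intro w hw
    cases c with
    | some x =>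
      apply ih (w ++ [x])
      simpa using hw
    | none =>
      by_cases hwp : TC.Proper w
      · -- the functional attached to `v` vanishes
        have key : ∀ y, FA Q v [] y = 0 := by
          cases v with
          | nil =>
            exfalso
            apply hw
            rw [List.isChain_append]
            refine ⟨?_, by simp, ?_⟩
            · rw [List.isChain_map]
              refine List.IsChain.imp ?_ hwp
              intro c d hcd h'
              exact hcd (Option.some_injective _ h')
            · intro a ha b hb
              simp only [List.head?_cons, Option.mem_def, Option.some.injEq] at hb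
              subst hb
              rintro rfl
              have := List.mem_of_getLast? ha
              simp at this
          | cons o v' =>
            cases o with
            | none =>
              intro y
              simp [FA]
            | some x =>
              apply fun h => (ih [] h).1
              intro hch
              apply hw
              rw [List.isChain_append]
              refine ⟨?_, ?_, ?_⟩
              · rw [List.isChain_map]
                refine List.IsChain.imp ?_ hwp
                intro c d hcd h'
                exact hcd (Option.some_injective _ h')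
              · rw [List.isChain_cons_cons]
                exact ⟨by simp, by simpa using hch⟩
              · intro a ha b hb
                simp only [List.head?_cons, Option.mem_def, Option.some.injEq] at hb
                subst hb
                rintro rfl
                have := List.mem_of_getLast? ha
                simp at this
        refine ⟨fun y => ?_, ?_⟩
        · simp only [FA, key, Finset.sum_const_zero, D_zero]
          simp
        · simp only [SA, key, Finset.sum_const_zero, D_zero]
          simp
      · exact improperA hQ _ w hwp

end Pool.Agent.H588R3.BR
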