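import Mathlib
import Pool.Agent.H588R3.BR.Theta3
import Pool.Agent.H588R3.BR.Bridge

set_option autoImplicit false

open MeasureTheory ProbabilityTheory

/-!
# The 4-colouring built from a 3-colouring
-/

namespace Pool.Agent.H588R3.BR

open TC (sdel)

/-- Word probabilities of the 4-colouring. -/
noncomputable def P4 (a : Fin 4) (Q : List (Fin 3) → ℝ) (w : List (Fin 4)) : ℝ :=
  SA Q (w.map (finSuccEquiv' a)) [] / 2 ^ (w.length + 1)

theorem P4_law (a : Fin 4) {Q : List (Fin 3) → ℝ} (hQ : TC.WLaw Q) : FC.WLaw (P4 a Q) := by
  refine ⟨?_, ?_, ?_, ?_⟩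
  · intro w
    exact div_nonneg (SA_nonneg hQ _ _) (by positivity)
  · unfold P4
    simp only [List.map_nil, SA, D_nil, hQ.nil, List.length_nil]
    norm_num
  · intro w hw
    unfold P4
    have : ¬ List.IsChain (· ≠ ·) (([] : List (Fin 3)).map some ++ w.map (finSuccEquiv' a)) := by
      intro h
      apply hw
      simp only [List.map_nil, List.nil_append] at h
      rw [List.isChain_map] at h
      unfold FC.Proper
      refine h.imp ?_
      intro c d hcd h'
      exact hcd (by rw [h'])
    rw [(improperB hQ _ [] this).2, zero_div]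
  · intro x y
    unfold P4
    have e1 : ∀ c : Fin 4, SA Q ((x ++ c :: y).map (finSuccEquiv' a)) [] /
        2 ^ ((x ++ c :: y).length + 1) =
        SA Q (x.map (finSuccEquiv' a) ++ finSuccEquiv' a c :: y.map (finSuccEquiv' a)) [] /
          (2 ^ (x.length + 1) * 2 ^ (y.length + 1)) := by
      intro c
      rw [List.map_append, List.map_cons, ← pow_add]
      congr 2
      simp
      omega
    simp only [e1]
    rw [← Finset.sum_div]
    have e2 : ∑ c : Fin 4, SA Q (x.map (finSuccEquiv' a) ++
        finSuccEquiv' a c :: y.map (finSuccEquiv' a)) [] =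
        ∑ o : Option (Fin 3), SA Q (x.map (finSuccEquiv' a) ++ o :: y.map (finSuccEquiv' a)) [] :=
      Equiv.sum_comp (finSuccEquiv' a)
        (fun o => SA Q (x.map (finSuccEquiv' a) ++ o :: y.map (finSuccEquiv' a)) [])
    rw [e2, SA_prod hQ]
    field_simp

theorem map_equiv (a : Fin 4) (w : List (Fin 3)) :
    (w.map a.succAbove).map (finSuccEquiv' a) = w.map some := by
  rw [List.map_map]
  apply List.map_congr_left
  intro c _
  simp only [Function.comp_apply]
  exact finSuccEquiv'_succAbove a c

theorem P4_inv (a : Fin 4) {Q : List (Fin 3) → ℝ} (hQ : TC.WLaw Q) (w : List (Fin 3)) :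
    2 ^ (w.length + 1) * (P4 a Q (w.map a.succAbove) - 2 * P4 a Q (a :: w.map a.succAbove)) =
      Q w := by
  unfold P4
  rw [List.map_cons, map_equiv, finSuccEquiv'_at]
  have h1 : SA Q (w.map some) [] = D Q w := by
    have := SA_map Q [] w []
    rw [List.append_nil, List.nil_append] at this
    rw [this]
    rfl
  have h2 : SA Q (none :: w.map some) [] = D Q w - Q w := by
    have e : FA Q (w.map some) [] = FA Q [] w := by
      have := FA_map Q [] w []
      rwa [List.append_nil, List.nil_append] at this
    show D (fun z => ∑ k, FA Q (w.map some) [] (z ++ [k])) [] - FA Q (w.map some) [] [] = _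
    rw [e, D_nil]
    have h3 : ∑ k, FA Q [] w ([] ++ [k]) = FA Q [] w [] := (good_base hQ w).left []
    rw [h3]
    have h4 : FA Q [] w [] = D Q w - Q w := by
      simp only [FA, List.nil_append]
      congr 1
      congr 1
      funext z
      exact hQ.left z
    rw [h4]; ring
  rw [h1, h2]
  simp only [List.length_map, List.length_cons]
  have h5 : (2 : ℝ) ^ (w.length + 1) ≠ 0 := by positivity
  rw [pow_succ (2 : ℝ) (w.length + 1)]
  field_simp
  ring

theorem continuous_D {T : Type*} [TopologicalSpace T] (F : T → List (Fin 3) → ℝ)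
    (hF : ∀ m, Continuous (fun t => F t m)) (w : List (Fin 3)) :
    Continuous (fun t => D (F t) w) := by
  unfold D
  split_ifs
  · exact continuous_const.mul (hF [])
  · exact TC.continuous_sdel F hF w
  · exact continuous_const

theorem continuous_word (w : List (Fin 3)) : Continuous (fun Q : TC.WSpace => Q.1 w) :=
  (continuous_apply w).comp continuous_subtype_val

theorem continuous_FA : ∀ (v : List (Option (Fin 3))) (w y : List (Fin 3)),
    Continuous (fun Q : TC.WSpace => FA Q.1 v w y) := by
  intro v
  induction v with
  | nil =>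
    intro w y
    simp only [FA]
    apply Continuous.sub _ (continuous_word _)
    apply continuous_D (fun (Q : TC.WSpace) z => ∑ h, Q.1 (y ++ h :: z))
    intro m
    exact continuous_finsetSum _ (fun h _ => continuous_word _)
  | cons c v ih =>
    intro w y
    cases c with
    | some x => exact ih (w ++ [x]) y
    | none =>
      simp only [FA]
      by_cases h0 : w = []
      · simp only [if_pos h0]
        exact continuous_const
      · simp only [if_neg h0]
        apply Continuous.sub
        · apply Continuous.sub
          · apply continuous_D (fun (Q : TC.WSpace) z => ∑ h, ∑ k, FA Q.1 v [] (y ++ h :: (z ++ [k])))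
            intro m
            exact continuous_finsetSum _ (fun h _ => continuous_finsetSum _ (fun k _ => ih _ _))
          · exact continuous_finsetSum _ (fun k _ => ih _ _)
        · exact continuous_finsetSum _ (fun k _ => ih _ _)

theorem continuous_SA : ∀ (v : List (Option (Fin 3))) (w : List (Fin 3)),
    Continuous (fun Q : TC.WSpace => SA Q.1 v w) := by
  intro v
  induction v with
  | nil =>
    intro w
    simp only [SA]
    exact continuous_D (fun (Q : TC.WSpace) z => Q.1 z) continuous_word w
  | cons c v ih =>
    intro w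
    cases c with
    | some x => exact ih (w ++ [x])
    | none =>
      simp only [SA]
      apply Continuous.sub _ (continuous_FA _ _ _)
      apply continuous_D (fun (Q : TC.WSpace) z => ∑ k, FA Q.1 v [] (z ++ [k]))
      intro m
      exact continuous_finsetSum _ (fun k _ => continuous_FA _ _ _)

/-- The map from 4-colouring laws to 3-colouring laws on the level of word laws. -/
noncomputable def psiW (a : Fin 4) (μ : FC.Laws) : TC.WSpace :=
  ⟨Q (μ.1 : Measure (ℤ → Fin 4)) a, Q_law μ.2 a⟩

/-- The inverse map. -/
noncomputable def thetaW (a : Fin 4) (P : TC.WSpace) : FC.Laws :=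
  ⟨FC.toPM ⟨P4 a P.1, P4_law a P.2⟩, FC.toPM_law _⟩

theorem psi_theta (a : Fin 4) (P : TC.WSpace) : psiW a (thetaW a P) = P := by
  apply Subtype.ext
  funext w
  show Q ((FC.toPM ⟨P4 a P.1, P4_law a P.2⟩ : ProbabilityMeasure (ℤ → Fin 4)) :
    Measure (ℤ → Fin 4)) a w = P.1 w
  unfold Q
  rw [FC.wp_toPM]
  exact P4_inv a P.2 w

theorem psiW_injective (a : Fin 4) : Function.Injective (psiW a) := by
  intro μ ν h
  have h2 : Q (μ.1 : Measure (ℤ → Fin 4)) a = Q (ν.1 : Measure (ℤ → Fin 4)) a :=
    congrArg Subtype.val h
  have h3 := determined μ.2 ν.2 a h2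
  apply FC.lawHomeo.injective
  exact Subtype.ext h3

theorem theta_psi (a : Fin 4) (μ : FC.Laws) : thetaW a (psiW a μ) = μ := by
  apply psiW_injective a
  exact psi_theta a _

theorem continuous_psiW (a : Fin 4) : Continuous (psiW a) := by
  apply Continuous.subtype_mk
  apply continuous_pi
  intro w
  have h1 : ∀ v : List (Fin 4), Continuous (fun μ : FC.Laws =>
      FC.wp (μ.1 : Measure (ℤ → Fin 4)) v) := by
    intro v
    exact (FC.continuous_winProb 0 v).comp continuous_subtype_val
  unfold Q
  exact continuous_const.mul ((h1 _).sub (continuous_const.mul (h1 _)))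

theorem continuous_thetaW (a : Fin 4) : Continuous (thetaW a) := by
  apply Continuous.subtype_mk
  apply FC.continuous_toPM.comp
  apply Continuous.subtype_mk
  apply continuous_pi
  intro w
  unfold P4
  exact (continuous_SA _ _).div_const _

/-- The two spaces of laws are homeomorphic. -/
noncomputable def lawsHomeo (a : Fin 4) : FC.Laws ≃ₜ TC.Laws where
  toFun μ := TC.lawHomeo.symm (psiW a μ)
  invFun ν := thetaW a (TC.lawHomeo ν)
  left_inv μ := by
    show thetaW a (TC.lawHomeo (TC.lawHomeo.symm (psiW a μ))) = μ
    rw [Homeomorph.apply_symm_apply, theta_psi]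
  right_inv ν := by
    show TC.lawHomeo.symm (psiW a (thetaW a (TC.lawHomeo ν))) = ν
    rw [psi_theta, Homeomorph.symm_apply_apply]
  continuous_toFun := TC.lawHomeo.symm.continuous.comp (continuous_psiW a)
  continuous_invFun := (continuous_thetaW a).comp TC.lawHomeo.continuous

end Pool.Agent.H588R3.BR
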